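import Mathlib

/-!
# LI/EFA: test function, Gaussian integral and Riemann-Lebesgue
-/

set_option autoImplicit false

namespace Pool.Agent.N596.LI

open Filter Topology MeasureTheory Complex

/-- the test function -/
noncomputable def hy (ε y : ℝ) (w : ℂ) : ℂ := cexp (w * y + ε ^ 2 * w ^ 2 / 2)

lemma hy_diff (ε y : ℝ) : Differentiable ℂ (hy ε y) := by unfold hy; fun_prop

lemma hy_norm (ε y : ℝ) (w : ℂ) :
    ‖hy ε y w‖ = Real.exp (w.re * y + ε ^ 2 * (w.re ^ 2 - w.im ^ 2) / 2) := by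
  unfold hy
  rw [Complex.norm_exp]
  congr 1
  have h1 : (w * y + ε ^ 2 * w ^ 2 / 2 : ℂ) = w * y + ((ε ^ 2 / 2 : ℝ) : ℂ) * (w * w) := by
    push_cast; ring
  rw [h1, add_re, re_mul_ofReal, re_ofReal_mul, mul_re]
  ring

lemma hy_norm_le (ε y : ℝ) (w : ℂ) (hw : |w.re| ≤ 2) :
    ‖hy ε y w‖ ≤ Real.exp (2 * |y| + 2 * ε ^ 2) * Real.exp (-(ε ^ 2 / 2) * w.im ^ 2) := by
  rw [hy_norm, ← Real.exp_add]
  apply Real.exp_le_exp.2
  have h1 : w.re * y ≤ 2 * |y| := by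
    calc w.re * y ≤ |w.re * y| := le_abs_self _
      _ = |w.re| * |y| := abs_mul _ _
      _ ≤ 2 * |y| := mul_le_mul_of_nonneg_right hw (abs_nonneg y)
  have h2 : w.re ^ 2 ≤ 4 := by
    rw [← sq_abs]
    nlinarith [abs_nonneg w.re]
  have h3 : ε ^ 2 * w.re ^ 2 ≤ ε ^ 2 * 4 := mul_le_mul_of_nonneg_left h2 (sq_nonneg ε)
  nlinarith

lemma hy_line (ε y v : ℝ) : hy ε y ⟨0, v⟩ = cexp (y * v * I) * cexp (-((ε ^ 2 / 2 : ℝ) : ℂ) * v ^ 2) := by
  unfold hy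
  have h1 : (⟨0, v⟩ : ℂ) = v * I := by apply Complex.ext <;> simp
  rw [h1, ← Complex.exp_add]
  congr 1
  push_cast
  rw [mul_pow, I_sq]
  ring

lemma hy_half (ε y : ℝ) : hy ε y (1 / 2) = ((Real.exp (y / 2 + ε ^ 2 / 8) : ℝ) : ℂ) := by
  unfold hy
  push_cast
  congr 1
  ring

/-- the Gaussian integral -/
lemma gauss (ε y l : ℝ) (hε : 0 < ε) :
    ∫ v : ℝ, cexp (-((v * I) * l)) * hy ε y ⟨0, v⟩ =
      2 * Real.pi * ((Real.exp (-((y - l) ^ 2 / (2 * ε ^ 2))) / (ε * Real.sqrt (2 * Real.pi)) : ℝ) : ℂ) := by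
  have h1 : ∀ v : ℝ, cexp (-((v * I) * l)) * hy ε y ⟨0, v⟩ =
      cexp (I * ((y - l : ℝ) : ℂ) * v) * cexp (-((ε ^ 2 / 2 : ℝ) : ℂ) * v ^ 2) := by
    intro v
    rw [hy_line, ← mul_assoc, ← Complex.exp_add]
    congr 2
    push_cast
    ring
  simp_rw [h1]
  have hb : 0 < (((ε ^ 2 / 2 : ℝ) : ℂ)).re := by
    rw [ofReal_re]; positivity
  rw [fourierIntegral_gaussian hb]
  have h2 : ((Real.pi : ℂ) / ((ε ^ 2 / 2 : ℝ) : ℂ)) ^ (1 / 2 : ℂ) = ((Real.sqrt (2 * Real.pi) / ε : ℝ) : ℂ) := by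
    have h3 : ((Real.pi : ℂ) / ((ε ^ 2 / 2 : ℝ) : ℂ)) = ((2 * Real.pi / ε ^ 2 : ℝ) : ℂ) := by
      push_cast
      have : (ε : ℂ) ≠ 0 := by exact_mod_cast hε.ne'
      field_simp
    rw [h3]
    have h4 : (1 / 2 : ℂ) = ((1 / 2 : ℝ) : ℂ) := by push_cast; ring
    rw [h4, ← Complex.ofReal_cpow (by positivity)]
    congr 1
    rw [← Real.sqrt_eq_rpow, Real.sqrt_div (by positivity), Real.sqrt_sq hε.le]
  have h5 : cexp (-((y - l : ℝ) : ℂ) ^ 2 / (4 * ((ε ^ 2 / 2 : ℝ) : ℂ))) =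
      ((Real.exp (-((y - l) ^ 2 / (2 * ε ^ 2))) : ℝ) : ℂ) := by
    rw [Complex.ofReal_exp]
    congr 1
    push_cast
    have : (ε : ℂ) ≠ 0 := by exact_mod_cast hε.ne'
    field_simp
    ring
  rw [h2, h5]
  rw [← Complex.ofReal_mul]
  have h6 : (2 * Real.pi : ℂ) = ((2 * Real.pi : ℝ) : ℂ) := by push_cast; ring
  rw [h6, ← Complex.ofReal_mul]
  congr 1
  have hs : Real.sqrt (2 * Real.pi) * Real.sqrt (2 * Real.pi) = 2 * Real.pi :=
    Real.mul_self_sqrt (by positivity)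
  have hs0 : Real.sqrt (2 * Real.pi) ≠ 0 := by positivity
  rw [div_mul_eq_mul_div, mul_div_assoc', div_eq_div_iff hε.ne' (by positivity)]
  calc Real.sqrt (2 * Real.pi) * Real.exp (-((y - l) ^ 2 / (2 * ε ^ 2))) *
        (ε * Real.sqrt (2 * Real.pi)) = (Real.sqrt (2 * Real.pi) * Real.sqrt (2 * Real.pi)) *
          Real.exp (-((y - l) ^ 2 / (2 * ε ^ 2))) * ε := by ring
    _ = _ := by rw [hs]

/-- Riemann-Lebesgue -/
lemma RL (f : ℝ → ℂ) :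
    Tendsto (fun y : ℝ => ∫ v : ℝ, cexp (y * v * I) * f v) atTop (𝓝 0) := by
  have h := Real.tendsto_integral_exp_smul_cocompact f
  have h2 : Tendsto (fun y : ℝ => -y / (2 * Real.pi)) atTop (cocompact ℝ) := by
    refine Tendsto.mono_right ?_ atBot_le_cocompact
    exact Tendsto.atBot_div_const (by positivity) tendsto_neg_atTop_atBot
  refine (h.comp h2).congr fun y => ?_
  simp only [Function.comp]
  refine integral_congr_ae (Eventually.of_forall fun v => ?_)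
  show Real.fourierChar (-(v * (-y / (2 * Real.pi)))) • f v = _
  rw [Circle.smul_def, Real.fourierChar_apply, smul_eq_mul]
  congr 2
  push_cast
  have : (Real.pi : ℂ) ≠ 0 := by exact_mod_cast Real.pi_ne_zero
  field_simp

end Pool.Agent.N596.LI
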