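import Pool.Agent.N804.LI.StmE
import Pool.Agent.N596.LI.EFA1

/-!
# LI/EFA: the explicit formula with a Gaussian, limit
-/

set_option autoImplicit false
set_option linter.unusedSectionVars false
set_option maxHeartbeats 2000000

namespace Pool.Agent.N596.LI

open Filter Topology MeasureTheory Complex
open scoped ComplexConjugate
open Pool.Agent.Y23.G (LFun aL Dec ph1 XL hst JJ J_eq zeros_line Zt mu X_strip)
open Pool.Agent.N804.LI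

lemma hy_dec (ε y : ℝ) : Dec (hy ε y) (Real.exp (2 * |y| + 2 * ε ^ 2)) (ε ^ 2 / 2) :=
  ⟨hy_diff ε y, fun w hw => hy_norm_le ε y w hw⟩

section

variable [L : LFun]

lemma ident (ε y : ℝ) (hε : 0 < ε) :
    2 * Real.pi * (PL L ε y - ∑' ρ : Zt, (mu (ρ : ℂ) : ℂ) * hy ε y ((ρ : ℂ) - 1 / 2)) =
      -(∫ v : ℝ, ph1 ⟨0, v⟩ * hy ε y ⟨0, v⟩) -
        L.r * (∫ v : ℝ, 1 / (⟨0, v⟩ - 1 / 2) * hy ε y ⟨0, v⟩) -
        conj (∫ v : ℝ, XL ⟨5 / 2, v⟩ * hst (hy ε y) ⟨2, v⟩) := by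
  have hδ : 0 < ε ^ 2 / 2 := by positivity
  have hM : 0 ≤ Real.exp (2 * |y| + 2 * ε ^ 2) := (Real.exp_pos _).le
  have hz := zeros_line hδ hM (hy_dec ε y)
  rw [J_eq hδ hM (hy_dec ε y)] at hz
  have hJ : ∀ n : ℕ, JJ (hy ε y) (Real.log n) = 2 * Real.pi * ((gs ε (y - Real.log n) : ℝ) : ℂ) :=
    fun n => gauss ε y (Real.log n) hε
  have ht : ∑' n : ℕ, aL n * JJ (hy ε y) (Real.log n) =
      2 * Real.pi * ∑' n : ℕ, aL n * ((gs ε (y - Real.log n) : ℝ) : ℂ) := by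
    rw [← tsum_mul_left]
    refine tsum_congr fun n => ?_
    rw [hJ]
    ring
  rw [ht, hy_half] at hz
  unfold PL
  linear_combination -hz

lemma sums (ε y : ℝ) (hs : Summable fun k : Zr L.X => Real.exp (-(ε ^ 2 * (zv k).im ^ 2 / 2))) :
    ∑' k : Zr L.X, cexp ((zv k - 1 / 2) * y + ε ^ 2 * (zv k - 1 / 2) ^ 2 / 2) =
      ∑' ρ : Zt, (mu (ρ : ℂ) : ℂ) * hy ε y ((ρ : ℂ) - 1 / 2) := by
  have hsum : Summable (fun k : Zr L.X => hy ε y (zv k - 1 / 2)) := by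
    refine Summable.of_norm_bounded (hs.mul_left (Real.exp (2 * |y| + 2 * ε ^ 2))) fun k => ?_
    have h0 : |(zv k).re - 1 / 2| ≤ 1 := X_strip k.1.2
    have hre : (zv k - 1 / 2).re = (zv k).re - 1 / 2 := by simp
    have him : (zv k - 1 / 2).im = (zv k).im := by simp
    have h1 := hy_norm_le ε y (zv k - 1 / 2) (by rw [hre]; linarith)
    rw [him] at h1
    refine h1.trans (le_of_eq ?_)
    congr 2
    ring
  have h2 := Summable.tsum_sigma' (f := fun k : Zr L.X => hy ε y (zv k - 1 / 2))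
    (fun b => (hasSum_fintype _).summable) hsum
  have h3 : ∑' k : Zr L.X, cexp ((zv k - 1 / 2) * y + ε ^ 2 * (zv k - 1 / 2) ^ 2 / 2) =
      ∑' k : Zr L.X, hy ε y (zv k - 1 / 2) := rfl
  rw [h3, h2]
  have h4 : ∀ ρ : {s : ℂ // L.X s = 0}, ∑' c : Fin (analyticOrderNatAt L.X (ρ : ℂ)),
      hy ε y (zv (⟨ρ, c⟩ : Zr L.X) - 1 / 2) = (mu (ρ : ℂ) : ℂ) * hy ε y ((ρ : ℂ) - 1 / 2) := by
    intro ρ
    have h5 : ∀ c : Fin (analyticOrderNatAt L.X (ρ : ℂ)),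
        hy ε y (zv (⟨ρ, c⟩ : Zr L.X) - 1 / 2) = hy ε y ((ρ : ℂ) - 1 / 2) := fun c => rfl
    rw [tsum_fintype, Finset.sum_congr rfl fun c _ => h5 c, Finset.sum_const, Finset.card_univ,
      Fintype.card_fin, nsmul_eq_mul]
    rfl
  exact tsum_congr h4

lemma lim1 (ε : ℝ) (f : ℝ → ℂ) :
    Tendsto (fun y : ℝ => ∫ v : ℝ, f v * hy ε y ⟨0, v⟩) atTop (𝓝 0) := by
  refine (RL (fun v => f v * cexp (-((ε ^ 2 / 2 : ℝ) : ℂ) * v ^ 2))).congr fun y => ?_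
  refine integral_congr_ae (Eventually.of_forall fun v => ?_)
  show cexp (y * v * I) * (f v * cexp (-((ε ^ 2 / 2 : ℝ) : ℂ) * v ^ 2)) = f v * hy ε y ⟨0, v⟩
  rw [hy_line]
  ring

lemma lim2 (ε : ℝ) (f : ℝ → ℂ) :
    Tendsto (fun y : ℝ => ∫ v : ℝ, f v * hst (hy ε y) ⟨2, v⟩) atTop (𝓝 0) := by
  have hn : ∀ y v : ℝ, ‖f v * hst (hy ε y) ⟨2, v⟩‖ =
      Real.exp (-(2 * y)) * (‖f v‖ * Real.exp (ε ^ 2 * (4 - v ^ 2) / 2)) := by
    intro y v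
    unfold hst
    rw [norm_mul, RCLike.norm_conj, hy_norm]
    have h1 : (-conj (⟨2, v⟩ : ℂ)).re = -2 := by simp
    have h2 : (-conj (⟨2, v⟩ : ℂ)).im = v := by simp
    rw [h1, h2]
    have h3 : (-2 : ℝ) * y + ε ^ 2 * ((-2) ^ 2 - v ^ 2) / 2 = -(2 * y) + ε ^ 2 * (4 - v ^ 2) / 2 := by
      ring
    rw [h3, Real.exp_add]
    ring
  have h4 : Tendsto (fun y : ℝ => Real.exp (-(2 * y)) *
      ∫ v : ℝ, ‖f v‖ * Real.exp (ε ^ 2 * (4 - v ^ 2) / 2)) atTop (𝓝 0) := by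
    have h5 : Tendsto (fun y : ℝ => Real.exp (-(2 * y))) atTop (𝓝 0) := by
      refine Real.tendsto_exp_neg_atTop_nhds_zero.comp ?_
      exact tendsto_id.const_mul_atTop (by norm_num)
    simpa using h5.mul_const (∫ v : ℝ, ‖f v‖ * Real.exp (ε ^ 2 * (4 - v ^ 2) / 2))
  refine squeeze_zero_norm (fun y => ?_) h4
  refine (norm_integral_le_integral_norm _).trans (le_of_eq ?_)
  rw [← integral_const_mul]
  exact integral_congr_ae (Eventually.of_forall fun v => hn y v)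

lemma main' (hs : ∀ ε : ℝ, 0 < ε → Summable fun k : Zr L.X => Real.exp (-(ε ^ 2 * (zv k).im ^ 2 / 2)))
    (ε : ℝ) (he : 0 < ε) : Tendsto (fun y : ℝ => PL L ε y -
      ∑' k : Zr L.X, cexp ((zv k - 1 / 2) * y + ε ^ 2 * (zv k - 1 / 2) ^ 2 / 2)) atTop (𝓝 0) := by
  have h1 := lim1 ε (fun v => ph1 (⟨0, v⟩ : ℂ))
  have h2 := lim1 ε (fun v => 1 / ((⟨0, v⟩ : ℂ) - 1 / 2))
  have h3 := lim2 ε (fun v => XL (⟨5 / 2, v⟩ : ℂ))
  have h3' : Tendsto (fun y : ℝ => conj (∫ v : ℝ, XL (⟨5 / 2, v⟩ : ℂ) * hst (hy ε y) ⟨2, v⟩)) atTop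
      (𝓝 0) := by
    have h5 := (Complex.continuous_conj.tendsto 0).comp h3
    rw [map_zero] at h5
    exact h5
  have h4 := ((h1.neg.sub (h2.const_mul (L.r : ℂ))).sub h3').const_mul ((2 * Real.pi : ℂ)⁻¹)
  rw [neg_zero, mul_zero, sub_zero, sub_zero, mul_zero] at h4
  refine h4.congr fun y => ?_
  rw [sums ε y (hs ε he)]
  have hp : (2 * Real.pi : ℂ) ≠ 0 := by
    have : (Real.pi : ℂ) ≠ 0 := by exact_mod_cast Real.pi_ne_zero
    exact mul_ne_zero two_ne_zero this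
  rw [inv_mul_eq_iff_eq_mul₀ hp]
  exact (ident ε y he).symm

end

theorem main (hs : ∀ (L : LFun) (ε : ℝ), 0 < ε →
      Summable fun k : Zr L.X => Real.exp (-(ε ^ 2 * (zv k).im ^ 2 / 2)))
    (L : LFun) (ε : ℝ) (he : 0 < ε) : Tendsto (fun y : ℝ => PL L ε y -
      ∑' k : Zr L.X, Complex.exp ((zv k - 1 / 2) * y + ε ^ 2 * (zv k - 1 / 2) ^ 2 / 2)) atTop (𝓝 0) :=
  main' (L := L) (hs L) ε he

end Pool.Agent.N596.LI
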